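import Pool.Agent.Helper35.SHR.Sheet

/-! # SHR, row GR2: the run clause (MP_0dfa80_co) -/

set_option autoImplicit false

namespace SHR
open SHQ
open scoped ENNReal

namespace S77

theorem lt_inj (p h : Fin 3) (hph : p ≠ h) (s t : Bool) (e : lt p h s = lt p h t) : s = t := by
  cases s <;> cases t <;> simp [lt] at e ⊢
  · exact hph e.symm
  · exact hph e

/-- a prefix code -/
theorem code_map (f : Bool → Fin 3) (g : Fin 3) (hf : ∀ s t, f s = f t → s = t)
    (hg : ∀ t, f t ≠ g) : ∀ (y y' : List Bool) (x x' : W),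
    y.map f ++ g :: x = y'.map f ++ g :: x' → y = y' ∧ x = x'
  | [], [], x, x', h => by
      simp at h
      exact ⟨rfl, h⟩
  | [], t :: y', x, x', h => by
      simp at h
      exact absurd h.1.symm (hg t)
  | t :: y, [], x, x', h => by
      simp at h
      exact absurd h.1 (hg t)
  | t :: y, s :: y', x, x', h => by
      simp only [List.map_cons, List.cons_append, List.cons.injEq] at h
      have h1 := code_map f g hf hg y y' x x' h.2
      exact ⟨by rw [hf _ _ h.1, h1.1], h1.2⟩

/-- index types -/
def Ix : ℕ → Type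
  | 0 => Unit
  | k + 1 => List Bool × Ix k

def toL : (k : ℕ) → Ix k → List (List Bool)
  | 0, _ => []
  | k + 1, i => i.1 :: toL k i.2

theorem toL_length : ∀ (k : ℕ) (i : Ix k), (toL k i).length = k
  | 0, _ => rfl
  | k + 1, i => by
      show (i.1 :: toL k i.2).length = k + 1
      rw [List.length_cons, toL_length k i.2]

theorem toL_inj : ∀ (k : ℕ) (i j : Ix k), toL k i = toL k j → i = j
  | 0, _, _, _ => rfl
  | k + 1, i, j, h => by
      have h' : i.1 :: toL k i.2 = j.1 :: toL k j.2 := h
      rw [List.cons.injEq] at h'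
      exact Prod.ext h'.1 (toL_inj k i.2 j.2 h'.2)

theorem TSum_eq : ∀ (k : ℕ) (φ : List (List Bool) → ℝ≥0∞), TSum k φ = ∑' i : Ix k, φ (toL k i)
  | 0, φ => by
      show φ [] = ∑' _ : Unit, φ []
      simp
  | k + 1, φ => by
      show ∑' y : List Bool, TSum k (fun ys => φ (y :: ys)) =
        ∑' i : List Bool × Ix k, φ (i.1 :: toL k i.2)
      rw [ENNReal.tsum_prod (f := fun y i => φ (y :: toL k i))]
      exact tsum_congr fun y => TSum_eq k fun ys => φ (y :: ys)

/-- the word after the first `p` -/
def tl (p g : Fin 3) : List (List Bool) → List Bool → W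
  | [], y => y.map (lt p (th p g))
  | y1 :: ys, y => y1.map (lt (th p g) g) ++ rw p g ys y

theorem rw_tl (p g : Fin 3) : ∀ (ys : List (List Bool)) (y : List Bool),
    rw p g ys y = p :: tl p g ys y
  | [], _ => rfl
  | _ :: _, _ => rfl

theorem tl_length (p g : Fin 3) : ∀ (ys : List (List Bool)) (y : List Bool),
    (tl p g ys y).length = ys.flatten.length + ys.length + y.length
  | [], y => by simp [tl]
  | y1 :: ys, y => by
      have h := tl_length p g ys y
      show (y1.map (lt (th p g) g) ++ rw p g ys y).length = _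
      rw [rw_tl, List.length_append, List.length_map, List.length_cons, h, List.flatten_cons,
        List.length_append, List.length_cons]
      omega

theorem tl_code (p g : Fin 3) (hgp : g ≠ p) : ∀ (ys ys' : List (List Bool)) (y y' : List Bool)
    (x x' : W), ys.length = ys'.length →
    tl p g ys y ++ g :: x = tl p g ys' y' ++ g :: x' → ys = ys' ∧ y = y' := by
  have hth : ∀ p g : Fin 3, g ≠ p → p ≠ th p g ∧ (∀ t, lt p (th p g) t ≠ g) := by decide
  have hth2 : ∀ p g : Fin 3, g ≠ p → th p g ≠ g ∧ (∀ t, lt (th p g) g t ≠ p) := by decide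
  intro ys
  induction ys with
  | nil =>
    intro ys' y y' x x' hl h
    have hl' : ys' = [] := by
      rw [List.length_nil] at hl
      exact List.eq_nil_of_length_eq_zero hl.symm
    subst hl'
    exact ⟨rfl, (code_map _ g (lt_inj p _ (hth p g hgp).1) (hth p g hgp).2 y y' x x' h).1⟩
  | cons y1 ys ih =>
    intro ys' y y' x x' hl h
    cases ys' with
    | nil => simp at hl
    | cons y1' ys' =>
      have h' : (y1.map (lt (th p g) g) ++ rw p g ys y) ++ g :: x =
        (y1'.map (lt (th p g) g) ++ rw p g ys' y') ++ g :: x' := h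
      rw [rw_tl, rw_tl] at h'
      simp only [List.append_assoc, List.cons_append] at h'
      have h1 := code_map _ p (lt_inj (th p g) g (hth2 p g hgp).1) (hth2 p g hgp).2 y1 y1' _ _ h'
      have h2 := ih ys' y y' x x' (by simpa using hl) h1.2
      exact ⟨by rw [h1.1, h2.1], h2.2⟩

theorem ones_lang (p : Fin 3) : ∀ (k : ℕ) (T : Tr) (u : W), u ∈ T.lang →
    List.replicate k p ++ u ∈ (ones p k T).lang
  | 0, _, _, h => h
  | k + 1, T, u, h => by
      rw [List.replicate_succ]
      exact ⟨List.replicate k p ++ u, ones_lang p k T u h, rfl⟩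

end S77

open S77 in
theorem st_GR2 (hPEN : ST_PEN) (hPRE : ST_PRE) (hLNG : ST_LNG) (hSEM : ST_SEM2) : ST_GR2 := by
  intro z k p g T hgp
  obtain ⟨hP, -, -, -, -⟩ := hPEN
  obtain ⟨happ, -, -, -, -⟩ := hLNG
  have h1 := hPRE z (Ix k × List Bool) (fun i => tl p g (toL k i.1) i.2 ++ [g])
    (fun i x => ∃ u ∈ (T.app (RT p g (toL k i.1) i.2)).lang, Pend (g :: u) (g :: x))
    (fun x => ∃ u ∈ (ones p k (.one g T)).lang, Pend (p :: u) (p :: x))
    (by
      rintro ⟨i, y⟩ ⟨i', y'⟩ x x' h
      simp only [List.append_assoc, List.cons_append, List.nil_append] at h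
      have h2 := tl_code p g hgp (toL k i) (toL k i') y y' x x'
        (by rw [toL_length, toL_length]) h
      rw [toL_inj k i i' h2.1, h2.2])
    (by
      rintro ⟨i, y⟩ x ⟨u, hu, hx⟩
      rw [happ] at hu
      obtain ⟨t, ht, d, hd, rfl⟩ := hu
      refine ⟨List.replicate k p ++ g :: t, ones_lang p k (.one g T) (g :: t) ⟨t, ht, rfl⟩, ?_⟩
      have h2 := hP (rw p g (toL k i) y) (List.replicate ((toL k i).length + 1) p) d (g :: t)
        (g :: x) (hSEM p g hgp (toL k i) y d hd) hx
      rw [toL_length, List.replicate_succ, rw_tl] at h2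
      simpa using h2)
  rw [TSum_eq]
  refine le_trans (le_of_eq ?_) h1
  rw [ENNReal.tsum_prod (f := fun i y => z ^ (tl p g (toL k i) y ++ [g]).length *
    Sg z fun x => ∃ u ∈ (T.app (RT p g (toL k i) y)).lang, Pend (g :: u) (g :: x))]
  refine tsum_congr fun i => tsum_congr fun y => ?_
  rw [List.length_append, tl_length, toL_length]
  rfl

end SHR
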